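import Mathlib

/-!
Basic continuum theory: boundary bumping, Sierpinski's theorem on countable closed partitions
of continua, and connectedness of the set of cluster points of a ray in a compact space.
-/

open Set Filter Topology

namespace Pool.Agent.Lib.Continuum

variable {X : Type*} [TopologicalSpace X]

/-- Boundary bumping: if `C` is a continuum, `U` is open, `D` is closed, `U ⊆ D`, `x ∈ C ∩ U`
and `C` is not contained in `D`, then some subcontinuum of `C ∩ D` through `x` leaves `U`. -/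
theorem boundary_bumping [T2Space X] {C U D : Set X} (hC : IsCompact C) (hc : IsPreconnected C)
    (hU : IsOpen U) (hD : IsClosed D) (hUD : U ⊆ D) {x : X} (hxC : x ∈ C) (hxU : x ∈ U)
    (hCD : ¬ C ⊆ D) :
    ∃ C' : Set X, IsCompact C' ∧ IsPreconnected C' ∧ C' ⊆ C ∩ D ∧ x ∈ C' ∧ ¬ C' ⊆ U := by
  have hK : IsCompact (C ∩ D) := hC.inter_right hD
  have : CompactSpace (C ∩ D : Set X) := isCompact_iff_compactSpace.mp hK
  let x' : (C ∩ D : Set X) := ⟨x, hxC, hUD hxU⟩
  refine ⟨Subtype.val '' connectedComponent x', ?_, ?_, ?_, ⟨x', mem_connectedComponent, rfl⟩, ?_⟩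
  · exact (isClosed_connectedComponent.isCompact).image continuous_subtype_val
  · exact isPreconnected_connectedComponent.image _ continuous_subtype_val.continuousOn
  · rintro _ ⟨y, _, rfl⟩
    exact y.2
  · intro hsub
    have hcl : IsClosed ((Subtype.val ⁻¹' U : Set (C ∩ D : Set X))ᶜ) :=
      (hU.preimage continuous_subtype_val).isClosed_compl
    have hemp : ((Subtype.val ⁻¹' U : Set (C ∩ D : Set X))ᶜ) ∩
        (⋂ s : { s : Set (C ∩ D : Set X) // IsClopen s ∧ x' ∈ s }, (s : Set (C ∩ D : Set X))) = ∅ := by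
      rw [← connectedComponent_eq_iInter_isClopen]
      ext y
      simp only [mem_inter_iff, mem_compl_iff, mem_preimage, mem_empty_iff_false, iff_false,
        not_and]
      intro hy hy'
      exact hy (hsub ⟨y, hy', rfl⟩)
    obtain ⟨t, ht⟩ := hcl.isCompact.elim_finite_subfamily_closed _
      (fun s : { s : Set (C ∩ D : Set X) // IsClopen s ∧ x' ∈ s } => s.2.1.1) hemp
    set W : Set (C ∩ D : Set X) :=
      ⋂ (i : { s : Set (C ∩ D : Set X) // IsClopen s ∧ x' ∈ s }) (_ : i ∈ t), i with hW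
    have hWc : IsClopen W := isClopen_biInter_finset fun i _ => i.2.1
    have hxW : x' ∈ W := mem_iInter₂.2 fun s _ => s.2.2
    have hWU : ∀ y ∈ W, (y : X) ∈ U := by
      intro y hy
      by_contra hyU
      have : y ∈ ((Subtype.val ⁻¹' U : Set (C ∩ D : Set X))ᶜ) ∩ W := ⟨hyU, hy⟩
      rw [ht] at this
      exact this
    obtain ⟨O, hO, hOW⟩ := isOpen_induced_iff.mp hWc.isOpen
    have hW'c : IsClosed (Subtype.val '' W) :=
      ((hWc.isClosed.isCompact).image continuous_subtype_val).isClosed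
    have hcover : C ⊆ (O ∩ U) ∪ (Subtype.val '' W)ᶜ := by
      intro y hy
      by_cases hyW : y ∈ Subtype.val '' W
      · obtain ⟨z, hz, rfl⟩ := hyW
        left
        refine ⟨?_, hWU z hz⟩
        rw [← hOW] at hz
        exact hz
      · exact Or.inr hyW
    have hx1 : (C ∩ (O ∩ U)).Nonempty := by
      refine ⟨x, hxC, ?_, hxU⟩
      have := hxW
      rw [← hOW] at this
      exact this
    obtain ⟨y, hyC, hyD⟩ := not_subset.mp hCD
    have hx2 : (C ∩ (Subtype.val '' W)ᶜ).Nonempty := by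
      refine ⟨y, hyC, ?_⟩
      rintro ⟨z, _, rfl⟩
      exact hyD z.2.2
    obtain ⟨z, hzC, ⟨hzO, hzU⟩, hzW⟩ := hc _ _ (hO.inter hU) hW'c.isOpen_compl hcover hx1 hx2
    apply hzW
    refine ⟨⟨z, hzC, hUD hzU⟩, ?_, rfl⟩
    rw [← hOW]
    exact hzO

/-- One step of the proof of Sierpinski's theorem. -/
theorem sierpinski_step [T2Space X] {F : ℕ → Set X} (hF : ∀ n, IsClosed (F n))
    {C : Set X} (hC : IsCompact C) (hc : IsPreconnected C) (hcov : ∀ x ∈ C, ∃ n, x ∈ F n)
    (hdis : ∀ x ∈ C, ∀ m n, x ∈ F m → x ∈ F n → m = n)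
    (hnot : ∀ m, ¬ C ⊆ F m) (n : ℕ) :
    ∃ C' : Set X, IsCompact C' ∧ IsPreconnected C' ∧ C' ⊆ C ∧ (∀ m, ¬ C' ⊆ F m) ∧
      ∀ x ∈ C', x ∉ F n := by
  by_cases hn : (C ∩ F n).Nonempty
  swap
  · exact ⟨C, hC, hc, Subset.rfl, hnot, fun x hx hx' => hn ⟨x, hx, hx'⟩⟩
  obtain ⟨x, hxC, hxn⟩ := not_subset.mp (hnot n)
  obtain ⟨m, hxm⟩ := hcov x hxC
  have hmn : m ≠ n := by
    rintro rfl
    exact hxn hxm
  have hA : IsCompact (C ∩ F m) := hC.inter_right (hF m)
  have hB : IsCompact (C ∩ F n) := hC.inter_right (hF n)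
  have hAB : Disjoint (C ∩ F m) (C ∩ F n) := by
    rw [Set.disjoint_left]
    rintro y ⟨hy, hym⟩ ⟨_, hyn⟩
    exact hmn (hdis y hy m n hym hyn)
  obtain ⟨U, V, hU, hV, hAU, hBV, hUV⟩ := SeparatedNhds.of_isCompact_isCompact hA hB hAB
  have hCD : ¬ C ⊆ Vᶜ := by
    obtain ⟨y, hy⟩ := hn
    intro h
    exact h hy.1 (hBV hy)
  obtain ⟨C', h1, h2, h3, h4, h5⟩ := boundary_bumping hC hc hU hV.isClosed_compl
    (fun y hy hyV => Set.disjoint_left.mp hUV hy hyV) hxC (hAU ⟨hxC, hxm⟩) hCD
  refine ⟨C', h1, h2, fun y hy => (h3 hy).1, ?_, ?_⟩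
  · intro j hj
    have hjm : m = j := hdis x hxC m j hxm (hj h4)
    subst hjm
    exact h5 fun y hy => hAU ⟨(h3 hy).1, hj hy⟩
  · intro y hy hyn
    exact (h3 hy).2 (hBV ⟨(h3 hy).1, hyn⟩)

/-- Sierpinski's theorem: a continuum covered by countably many closed sets whose traces on it
are pairwise disjoint lies in one of them. -/
theorem sierpinski [T2Space X] {F : ℕ → Set X} (hF : ∀ n, IsClosed (F n))
    {C : Set X} (hC : IsCompact C) (hc : IsPreconnected C) (hcov : ∀ x ∈ C, ∃ n, x ∈ F n)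
    (hdis : ∀ x ∈ C, ∀ m n, x ∈ F m → x ∈ F n → m = n) : ∃ n, C ⊆ F n := by
  by_contra hnot
  push Not at hnot
  let P : Set X → Prop := fun D => IsCompact D ∧ IsPreconnected D ∧ D ⊆ C ∧ ∀ m, ¬ D ⊆ F m
  have step : ∀ (n : ℕ) (D : {D // P D}), ∃ D' : {D // P D}, D'.1 ⊆ D.1 ∧ ∀ x ∈ D'.1, x ∉ F n := by
    rintro n ⟨D, h1, h2, h3, h4⟩
    obtain ⟨D', g1, g2, g3, g4, g5⟩ := sierpinski_step hF h1 h2 (fun x hx => hcov x (h3 hx))
      (fun x hx => hdis x (h3 hx)) h4 n
    exact ⟨⟨D', g1, g2, g3.trans h3, g4⟩, g3, g5⟩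
  choose nxt hsub hav using step
  let D : ℕ → {D // P D} := fun n =>
    Nat.rec (⟨C, hC, hc, Subset.rfl, hnot⟩ : {D // P D}) (fun k E => nxt k E) n
  have hD : ∀ n, D (n + 1) = nxt n (D n) := fun n => rfl
  have hne : (⋂ n, (D n).1).Nonempty := by
    apply IsCompact.nonempty_iInter_of_sequence_nonempty_isCompact_isClosed
    · intro n
      rw [hD]
      exact hsub n (D n)
    · intro n
      obtain ⟨x, hx, _⟩ := not_subset.mp ((D n).2.2.2.2 0)
      exact ⟨x, hx⟩
    · exact (D 0).2.1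
    · intro n
      exact (D n).2.1.isClosed
  obtain ⟨x, hx⟩ := hne
  rw [mem_iInter] at hx
  obtain ⟨n, hn⟩ := hcov x (hx 0)
  have := hx (n + 1)
  rw [hD] at this
  exact hav n (D n) x this hn

/-- Increasing form of Sierpinski's theorem. -/
theorem sierpinski_mono [T2Space X] {G : ℕ → Set X} (hG0 : IsClosed (G 0)) (hmono : Monotone G)
    {C : Set X} (hC : IsCompact C) (hc : IsPreconnected C) (hcov : ∀ x ∈ C, ∃ n, x ∈ G n)
    (hcl : ∀ n, ∃ H : Set X, IsClosed H ∧ C ∩ H = C ∩ (G (n + 1) \ G n)) : ∃ n, C ⊆ G n := by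
  classical
  choose H hH hH' using hcl
  let F : ℕ → Set X := fun n => Nat.casesOn n (G 0) H
  have hFs : ∀ n, F (n + 1) = H n := fun n => rfl
  have hF0 : F 0 = G 0 := rfl
  have key : ∀ x ∈ C, ∀ n, x ∈ F n ↔ (x ∈ G n ∧ ∀ k < n, x ∉ G k) := by
    intro x hx n
    cases n with
    | zero => simp [hF0]
    | succ n =>
      rw [hFs]
      have h1 : x ∈ H n ↔ x ∈ G (n + 1) \ G n := by
        constructor
        · intro h
          have : x ∈ C ∩ H n := ⟨hx, h⟩
          rw [hH'] at this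
          exact this.2
        · intro h
          have : x ∈ C ∩ (G (n + 1) \ G n) := ⟨hx, h⟩
          rw [← hH'] at this
          exact this.2
      rw [h1]
      constructor
      · rintro ⟨h2, h3⟩
        exact ⟨h2, fun k hk hk' => h3 (hmono (Nat.lt_succ_iff.mp hk) hk')⟩
      · rintro ⟨h2, h3⟩
        exact ⟨h2, h3 n (Nat.lt_succ_self n)⟩
  have hFc : ∀ n, IsClosed (F n) := by
    intro n
    cases n with
    | zero => exact hG0
    | succ n => exact hH n
  obtain ⟨n, hn⟩ := sierpinski hFc hC hc (fun x hx => by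
      have hex := hcov x hx
      refine ⟨Nat.find hex, (key x hx _).2 ⟨Nat.find_spec hex, fun k hk => Nat.find_min hex hk⟩⟩)
    (fun x hx m n hm hn => by
      rw [key x hx] at hm hn
      rcases lt_trichotomy m n with h | h | h
      · exact absurd hm.1 (hn.2 m h)
      · exact h
      · exact absurd hn.1 (hm.2 n h))
  exact ⟨n, fun x hx => ((key x (hx) n).1 (hn hx)).1⟩

/-- In a compact space, an open set containing all cluster points of a map along a filter
contains the values eventually. -/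
theorem eventually_mem_of_clusterPt [CompactSpace X] {ι : Type*} {l : Filter ι} {f : ι → X}
    {O : Set X} (hO : IsOpen O) (h : ∀ x, MapClusterPt x l f → x ∈ O) : ∀ᶠ t in l, f t ∈ O := by
  by_contra hne
  have hfr : ∃ᶠ t in l, f t ∈ Oᶜ := Filter.not_eventually.mp hne
  obtain ⟨x, hx, hx'⟩ := hO.isClosed_compl.isCompact.exists_mapClusterPt_of_frequently hfr
  exact hx (h x hx')

/-- The set of cluster points at `+∞` of a continuous map from the line to a compact
Hausdorff space is preconnected. -/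
theorem isPreconnected_clusterPt_atTop [T2Space X] [CompactSpace X] {f : ℝ → X}
    (hf : Continuous f) : IsPreconnected {x | MapClusterPt x atTop f} := by
  have hK : IsClosed {x | MapClusterPt x atTop f} := isClosed_setOfPred_clusterPt
  rw [isPreconnected_iff_subset_of_fully_disjoint_closed hK]
  intro a b ha hb hab hdis
  obtain ⟨u, v, hu, hv, hau, hbv, huv⟩ := normal_separation ha hb hdis
  have hev : ∀ᶠ t in atTop, f t ∈ u ∪ v :=
    eventually_mem_of_clusterPt (hu.union hv)
      fun x hx => union_subset_union hau hbv (hab hx)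
  obtain ⟨T, hT⟩ := eventually_atTop.mp hev
  have hpre : IsPreconnected (f '' Ici T) := isPreconnected_Ici.image f hf.continuousOn
  have hsub : f '' Ici T ⊆ u ∪ v := by
    rintro _ ⟨t, ht, rfl⟩
    exact hT t ht
  rcases hpre.subset_or_subset hu hv huv hsub with h | h
  · left
    intro x hx
    rcases hab hx with h' | h'
    · exact h'
    · exfalso
      have h1 : ∃ᶠ t in atTop, f t ∈ v := hx.frequently (hv.mem_nhds (hbv h'))
      obtain ⟨t, ht, ht'⟩ := (h1.and_eventually (eventually_ge_atTop T)).exists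
      exact Set.disjoint_left.mp huv (h ⟨t, ht', rfl⟩) ht
  · right
    intro x hx
    rcases hab hx with h' | h'
    · exfalso
      have h1 : ∃ᶠ t in atTop, f t ∈ u := hx.frequently (hu.mem_nhds (hau h'))
      obtain ⟨t, ht, ht'⟩ := (h1.and_eventually (eventually_ge_atTop T)).exists
      exact Set.disjoint_left.mp huv ht (h ⟨t, ht', rfl⟩)
    · exact h'

/-- Cluster points of `g ∘ f` come from cluster points of `f` when the domain of `g` is compact. -/
theorem exists_clusterPt_of_comp [CompactSpace X] {Y : Type*} [TopologicalSpace Y] [T2Space Y]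
    {ι : Type*} {l : Filter ι} {f : ι → X} {g : X → Y} (hg : Continuous g) {y : Y}
    (hy : MapClusterPt y l (g ∘ f)) : ∃ x, MapClusterPt x l f ∧ g x = y := by
  have h1 : (l ⊓ comap (g ∘ f) (𝓝 y)).NeBot := by
    have h2 : (𝓝 y ⊓ map (g ∘ f) l).NeBot := hy
    rw [← Filter.push_pull', Filter.map_neBot_iff, inf_comm] at h2
    exact h2
  obtain ⟨x, hx⟩ := exists_clusterPt_of_compactSpace (map f (l ⊓ comap (g ∘ f) (𝓝 y)))
  have hx' : MapClusterPt x (l ⊓ comap (g ∘ f) (𝓝 y)) f := hx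
  refine ⟨x, hx'.mono inf_le_left, ?_⟩
  have h3 : MapClusterPt (g x) (l ⊓ comap (g ∘ f) (𝓝 y)) (g ∘ f) :=
    hx'.continuousAt_comp hg.continuousAt
  have h4 : Tendsto (g ∘ f) (l ⊓ comap (g ∘ f) (𝓝 y)) (𝓝 y) :=
    tendsto_comap.mono_left inf_le_right
  exact eq_of_nhds_neBot (h3.clusterPt.mono h4)

end Pool.Agent.Lib.Continuum
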